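import Pool.Agent.H82.HD.TC

/-!
# Row ADD: small slices at four generic positions force small differences
-/

set_option autoImplicit false

namespace Pool.Agent.H69.HDS

open scoped Pointwise
open Pool.Agent.H82.HD

/-- the form of all bounds -/
noncomputable def Ph (D c : ℕ) (K L : ℝ) : ℝ := (K * (c * L) ^ D) ^ c

/-- `x` and its inverse are at most `(4 L) ^ k` -/
def R (L : ℝ) (k : ℕ) (x : ℝ) : Prop := ((4 * L) ^ k)⁻¹ ≤ |x| ∧ |x| ≤ (4 * L) ^ k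

private lemma base_ge {D c : ℕ} {K L : ℝ} (hK : 1 ≤ K) (hL : 1 ≤ L) (hc : 1 ≤ c) :
    K ≤ K * ((c : ℝ) * L) ^ D := by
  have h1 : (1 : ℝ) ≤ c := by exact_mod_cast hc
  have h2 : (1 : ℝ) ≤ (c : ℝ) * L := by nlinarith
  have h3 : (1 : ℝ) ≤ ((c : ℝ) * L) ^ D := one_le_pow₀ h2
  nlinarith

lemma Ph_mono {D c c' : ℕ} {K L : ℝ} (hK : 1 ≤ K) (hL : 1 ≤ L) (h : c ≤ c') :
    Ph D c K L ≤ Ph D c' K L := by
  unfold Ph
  rcases Nat.eq_zero_or_pos c with h0 | h0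
  · subst h0
    rw [pow_zero]
    rcases Nat.eq_zero_or_pos c' with h1 | h1
    · subst h1; simp
    · exact one_le_pow₀ (hK.trans (base_ge hK hL h1))
  have hc' : 1 ≤ c' := le_trans h0 h
  have h3 : K * ((c : ℝ) * L) ^ D ≤ K * ((c' : ℝ) * L) ^ D := by
    have h4 : (c : ℝ) ≤ c' := by exact_mod_cast h
    have h5 : (0 : ℝ) ≤ c := Nat.cast_nonneg c
    gcongr
  calc (K * ((c : ℝ) * L) ^ D) ^ c ≤ (K * ((c' : ℝ) * L) ^ D) ^ c :=
        pow_le_pow_left₀ (by positivity) h3 c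
    _ ≤ (K * ((c' : ℝ) * L) ^ D) ^ c' :=
        pow_le_pow_right₀ (hK.trans (base_ge hK hL hc')) h

lemma one_le_Ph {D c : ℕ} {K L : ℝ} (hK : 1 ≤ K) (hL : 1 ≤ L) : 1 ≤ Ph D c K L := by
  have := Ph_mono (D := D) hK hL (Nat.zero_le c)
  unfold Ph at this ⊢
  simpa using this

lemma le_Ph {D c : ℕ} {K L : ℝ} (hK : 1 ≤ K) (hL : 1 ≤ L) (hc : 1 ≤ c) :
    K ≤ Ph D c K L := by
  have h1 := base_ge (D := D) hK hL hc
  have h2 : K * ((c : ℝ) * L) ^ D ≤ Ph D c K L :=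
    le_self_pow₀ (hK.trans h1) (by omega)
  exact h1.trans h2

lemma step_le {D c C e : ℕ} {K L : ℝ} (hK : 1 ≤ K) (hL : 1 ≤ L) (hC : 1 ≤ C) (he : 1 ≤ e) :
    (Ph D c K L * ((C : ℝ) * (4 * L) ^ e) ^ D) ^ C ≤
      Ph D ((c + 4 * C) + (c + e) * C) K L := by
  obtain ⟨c', hc'⟩ : ∃ c' : ℕ, c' = (c + 4 * C) + (c + e) * C := ⟨_, rfl⟩
  rw [← hc']
  have h1 : c ≤ c' := by rw [hc']; nlinarith
  have h2 : 4 * C ≤ c' := by rw [hc']; nlinarith
  have h3 : (c + e) * C ≤ c' := by rw [hc']; omega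
  have hc1 : 1 ≤ c' := by omega
  have hCr : (1 : ℝ) ≤ C := by exact_mod_cast hC
  obtain ⟨b, hb⟩ : ∃ b : ℝ, b = K * ((c' : ℝ) * L) ^ D := ⟨_, rfl⟩
  have hKb : K ≤ b := by rw [hb]; exact base_ge hK hL hc1
  have hb1 : 1 ≤ b := hK.trans hKb
  have h4 : Ph D c K L ≤ b ^ c := by
    unfold Ph
    have h5 : K * ((c : ℝ) * L) ^ D ≤ b := by
      rw [hb]
      have h6 : (c : ℝ) ≤ c' := by exact_mod_cast h1
      have h7 : (0 : ℝ) ≤ c := Nat.cast_nonneg c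
      gcongr
    exact pow_le_pow_left₀ (by positivity) h5 c
  have h8 : ((C : ℝ) * (4 * L) ^ e) ^ D ≤ b ^ e := by
    have h9 : (C : ℝ) * (4 * L) ^ e ≤ ((c' : ℝ) * L) ^ e := by
      calc (C : ℝ) * (4 * L) ^ e ≤ (C : ℝ) ^ e * (4 * L) ^ e := by
            refine mul_le_mul_of_nonneg_right ?_ (by positivity)
            exact le_self_pow₀ hCr (by omega)
        _ = ((4 * C : ℕ) * L) ^ e := by rw [← mul_pow]; push_cast; ring
        _ ≤ ((c' : ℝ) * L) ^ e := by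
            have h10 : ((4 * C : ℕ) : ℝ) ≤ c' := by exact_mod_cast h2
            gcongr
    calc ((C : ℝ) * (4 * L) ^ e) ^ D ≤ (((c' : ℝ) * L) ^ e) ^ D :=
          pow_le_pow_left₀ (by positivity) h9 D
      _ = (((c' : ℝ) * L) ^ D) ^ e := by rw [← pow_mul, ← pow_mul, mul_comm e D]
      _ ≤ b ^ e := by
          refine pow_le_pow_left₀ (by positivity) ?_ e
          rw [hb]
          have : (0 : ℝ) ≤ ((c' : ℝ) * L) ^ D := by positivity
          nlinarith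
  have hPh0 : 0 ≤ Ph D c K L := by unfold Ph; positivity
  calc (Ph D c K L * ((C : ℝ) * (4 * L) ^ e) ^ D) ^ C ≤ (b ^ c * b ^ e) ^ C := by
        refine pow_le_pow_left₀ (mul_nonneg hPh0 (by positivity)) ?_ C
        exact mul_le_mul h4 h8 (by positivity) (by positivity)
    _ = b ^ ((c + e) * C) := by rw [← pow_add, ← pow_mul]
    _ ≤ b ^ c' := pow_le_pow_right₀ hb1 h3
    _ = Ph D c' K L := by rw [hb]; rfl

/-! ## the range of the multipliers -/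

private lemma four_le {L : ℝ} (hL : 1 ≤ L) : 1 ≤ 4 * L := by linarith

lemma R.mono {L x : ℝ} {k m : ℕ} (hL : 1 ≤ L) (h : R L k x) (hkm : k ≤ m) : R L m x := by
  have h1 : (4 * L) ^ k ≤ (4 * L) ^ m := pow_le_pow_right₀ (four_le hL) hkm
  refine ⟨?_, h.2.trans h1⟩
  refine le_trans ?_ h.1
  exact inv_anti₀ (by positivity) h1

lemma R.mul {L x y : ℝ} {k m : ℕ} (hL : 1 ≤ L) (h : R L k x) (h' : R L m y) :
    R L (k + m) (x * y) := by
  unfold R
  rw [abs_mul, pow_add, mul_inv]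
  exact ⟨mul_le_mul h.1 h'.1 (by positivity) (abs_nonneg _),
    mul_le_mul h.2 h'.2 (abs_nonneg _) (by positivity)⟩

lemma R.ne {L x : ℝ} {k : ℕ} (hL : 1 ≤ L) (h : R L k x) : x ≠ 0 := by
  intro h0
  have h1 := h.1
  rw [h0, abs_zero] at h1
  have : (0 : ℝ) < ((4 * L) ^ k)⁻¹ := by positivity
  linarith

lemma R.inv {L x : ℝ} {k : ℕ} (hL : 1 ≤ L) (h : R L k x) : R L k x⁻¹ := by
  have hx : 0 < |x| := abs_pos.2 (h.ne hL)
  unfold R
  rw [abs_inv]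
  refine ⟨inv_anti₀ hx h.2, ?_⟩
  rw [inv_le_comm₀ hx (by positivity)]
  exact h.1

lemma R.neg {L x : ℝ} {k : ℕ} (h : R L k x) : R L k (-x) := by
  unfold R; rw [abs_neg]; exact h

lemma R.div {L x y : ℝ} {k m : ℕ} (hL : 1 ≤ L) (h : R L k x) (h' : R L m y) :
    R L (k + m) (x / y) := by
  rw [div_eq_mul_inv]; exact h.mul hL (h'.inv hL)

lemma R_one {L x : ℝ} (hL : 1 ≤ L) (h1 : L⁻¹ ≤ |x|) (h2 : |x| ≤ 4 * L) : R L 1 x := by
  unfold R
  rw [pow_one]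
  refine ⟨le_trans ?_ h1, h2⟩
  exact inv_anti₀ (by linarith) (by linarith)

/-! ## the steps -/

lemma Qm_mono {ι : Type} [Fintype ι] {N K K' : ℝ} {B : Finset (ι → ℤ)} {lam : ℝ}
    (hN : 0 < N) (h : K ≤ K') (hQ : Qm N K B lam) : Qm N K' B lam := by
  unfold Qm at hQ ⊢
  exact hQ.trans (mul_le_mul_of_nonneg_right h hN.le)

open scoped Classical in
lemma mul_step (hMUL : T_MUL) (e : ℕ) (he : 1 ≤ e) : ∃ f : ℕ → ℕ, ∀ c, c ≤ f c ∧
    ∀ (ι : Type) [Fintype ι] (B : Finset (ι → ℤ)) (N K L : ℝ), 1 ≤ K → 1 ≤ L → 0 < N →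
      1 ≤ c → N ≤ K * B.card → (B.card : ℝ) ≤ N →
      ((B - B).card : ℝ) ≤ Ph (Fintype.card ι) c K L * N →
      (∀ lam mu : ℝ, R L e lam → R L e mu → Qm N (Ph (Fintype.card ι) c K L) B lam →
        Qm N (Ph (Fintype.card ι) c K L) B mu →
        Qm N (Ph (Fintype.card ι) (f c) K L) B (lam * mu) ∧
        Qm N (Ph (Fintype.card ι) (f c) K L) B lam⁻¹) ∧
      (∀ lam mu : ℝ, R L e lam → Qm N (Ph (Fintype.card ι) c K L) B lam →
        Qm N (Ph (Fintype.card ι) c K L) B mu →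
        Qm N (Ph (Fintype.card ι) (f c) K L) B (-lam) ∧
        Qm N (Ph (Fintype.card ι) (f c) K L) B (lam + mu)) := by
  obtain ⟨C, hC, H⟩ := hMUL
  refine ⟨fun c => (c + 4 * C) + (c + e) * C, fun c => ⟨by dsimp only; nlinarith, ?_⟩⟩
  intro ι _ B N K L hK hL hN hc hNB hBN hBB
  have hP1 := one_le_Ph (D := Fintype.card ι) (c := c) hK hL
  have h4L : 1 ≤ (4 * L) ^ e := one_le_pow₀ (four_le hL)
  have hNB' : N ≤ Ph (Fintype.card ι) c K L * B.card :=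
    hNB.trans (mul_le_mul_of_nonneg_right (le_Ph hK hL hc) (Nat.cast_nonneg _))
  have hBN' : (B.card : ℝ) ≤ Ph (Fintype.card ι) c K L * N := by nlinarith
  have hs := step_le (D := Fintype.card ι) (c := c) hK hL hC he
  obtain ⟨H1, H2⟩ := H ι B N (Ph (Fintype.card ι) c K L) ((4 * L) ^ e) hP1 h4L hN hNB' hBN' hBB
  refine ⟨fun lam mu hl hm ql qm => ?_, fun lam mu hl ql qm => ?_⟩
  · obtain ⟨h5, h6⟩ := H1 lam mu hl.1 hl.2 hm.1 hm.2 ql qm
    exact ⟨Qm_mono hN hs h5, Qm_mono hN hs h6⟩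
  · obtain ⟨h5, h6⟩ := H2 lam mu hl.1 hl.2 ql qm
    exact ⟨Qm_mono hN hs h5, Qm_mono hN hs h6⟩

lemma fl_one {ι : Type} [Fintype ι] (B : Finset (ι → ℤ)) : fl 1 B = B := by
  classical
  unfold fl
  ext x
  rw [Finset.mem_image]
  constructor
  · rintro ⟨a, ha, rfl⟩
    have : (fun i => ⌊(1 : ℝ) * (a i : ℝ)⌋) = a := by
      funext i; rw [one_mul, Int.floor_intCast]
    rw [this]; exact ha
  · intro hx
    exact ⟨x, hx, by funext i; rw [one_mul, Int.floor_intCast]⟩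

theorem pf_ADD (hMUL : T_MUL) (hRAT : T_RAT) : T_ADD := by
  classical
  obtain ⟨f, hf⟩ := mul_step hMUL 20 (by norm_num)
  obtain ⟨C, hC, hR⟩ := hRAT
  -- the constants
  obtain ⟨c1, hc1⟩ : ∃ c1 : ℕ, c1 = 4 * C := ⟨_, rfl⟩
  obtain ⟨c2, hc2⟩ : ∃ c2 : ℕ, c2 = (c1 + 4 * C) + (c1 + 20) * C := ⟨_, rfl⟩
  obtain ⟨c11, hc11⟩ : ∃ c11 : ℕ, c11 = f (f (f (f (f (f (f (f (f c2)))))))) := ⟨_, rfl⟩
  obtain ⟨c12, hc12⟩ : ∃ c12 : ℕ, c12 = (c11 + 4 * C) + (c11 + 20) * C := ⟨_, rfl⟩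
  refine ⟨c12, by omega, ?_⟩
  intro ι _ A B N K L a c hK hL hN hNA hNB hAN hBN haL hcL ha hc h1a h1c ha1 hc1' hac hsl
  have hL0 : 0 < L := by linarith
  have hf0 : ∀ m, m ≤ f m := fun m => (hf m).1
  obtain ⟨D, hD⟩ : ∃ D : ℕ, D = Fintype.card ι := ⟨_, rfl⟩
  -- basic ranges
  have Ra : R L 1 a := R_one hL ha (by linarith)
  have Rc : R L 1 c := R_one hL hc (by linarith)
  have babs : ∀ x : ℝ, |x| ≤ L → |1 - x| ≤ 2 * L ∧ |1 + x| ≤ 2 * L := by
    intro x hx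
    rw [abs_le] at hx
    constructor <;> rw [abs_le] <;> constructor <;> linarith
  have R1a : R L 1 (1 - a) := R_one hL h1a (by linarith [(babs a haL).1])
  have R1c : R L 1 (1 - c) := R_one hL h1c (by linarith [(babs c hcL).1])
  have Ra1 : R L 1 (1 + a) := R_one hL ha1 (by linarith [(babs a haL).2])
  have Rc1 : R L 1 (1 + c) := R_one hL hc1' (by linarith [(babs c hcL).2])
  have Rac : R L 1 (a - c) := by
    refine R_one hL hac ?_
    have h1 := abs_le.1 haL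
    have h2 := abs_le.1 hcL
    rw [abs_le]
    constructor <;> linarith
  have R2 : R L 1 (2 : ℝ) := by
    refine R_one hL ?_ ?_
    · rw [abs_of_pos (by norm_num : (0 : ℝ) < 2)]
      have := inv_le_one_of_one_le₀ hL
      linarith
    · rw [abs_of_pos (by norm_num : (0 : ℝ) < 2)]; linarith
  have na : a ≠ 0 := Ra.ne hL
  have nc : c ≠ 0 := Rc.ne hL
  have n1a : 1 - a ≠ 0 := R1a.ne hL
  have n1c : 1 - c ≠ 0 := R1c.ne hL
  have na1 : 1 + a ≠ 0 := Ra1.ne hL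
  have nc1 : 1 + c ≠ 0 := Rc1.ne hL
  have nac : a - c ≠ 0 := Rac.ne hL
  -- RAT (i)
  have h4L : 1 ≤ 4 * L := four_le hL
  have hP1 : (K * ((C : ℝ) * (4 * L)) ^ Fintype.card ι) ^ C ≤ Ph (Fintype.card ι) c1 K L := by
    rw [hc1]
    unfold Ph
    have h5 : (C : ℝ) * (4 * L) = ((4 * C : ℕ) : ℝ) * L := by push_cast; ring
    rw [h5]
    exact pow_le_pow_right₀ (hK.trans (base_ge hK hL (by omega))) (by omega)
  have hRi := (hR ι A B N K (4 * L) hK h4L hN hNA hNB).1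
  have hsli : ∀ u : ℝ, u ∈ ({a, a + 1, c, c + 1} : Set ℝ) → R L 1 u → R L 1 (1 - u) →
      ((A - fl (-(u / (1 - u))) B).card : ℝ) ≤ Ph (Fintype.card ι) c1 K L * N ∧
      ((B - B).card : ℝ) ≤ Ph (Fintype.card ι) c1 K L * N := by
    intro u hu hu1 hu2
    unfold R at hu1 hu2
    rw [pow_one] at hu1 hu2
    obtain ⟨h6, h7⟩ := hRi u hu1.1 hu1.2 hu2.1 hu2.2 (hsl u hu)
    exact ⟨h6.trans (mul_le_mul_of_nonneg_right hP1 hN.le),
      h7.trans (mul_le_mul_of_nonneg_right hP1 hN.le)⟩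
  obtain ⟨s1, hBB⟩ := hsli a (by simp) Ra R1a
  have s2 := (hsli (a + 1) (by simp) (by rw [add_comm]; exact Ra1)
    (by have : 1 - (a + 1) = -a := by ring
        rw [this]; exact Ra.neg)).1
  have s3 := (hsli c (by simp) Rc R1c).1
  have s4 := (hsli (c + 1) (by simp) (by rw [add_comm]; exact Rc1)
    (by have : 1 - (c + 1) = -c := by ring
        rw [this]; exact Rc.neg)).1
  -- RAT (ii)
  have hc1pos : 1 ≤ c1 := by omega
  have h20 : 1 ≤ (4 * L) ^ 20 := one_le_pow₀ h4L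
  have hPc1 := one_le_Ph (D := Fintype.card ι) (c := c1) hK hL
  have hNA1 : N ≤ Ph (Fintype.card ι) c1 K L * A.card :=
    hNA.trans (mul_le_mul_of_nonneg_right (le_Ph hK hL hc1pos) (Nat.cast_nonneg _))
  have hNB1 : N ≤ Ph (Fintype.card ι) c1 K L * B.card :=
    hNB.trans (mul_le_mul_of_nonneg_right (le_Ph hK hL hc1pos) (Nat.cast_nonneg _))
  have hRii := (hR ι A B N (Ph (Fintype.card ι) c1 K L) ((4 * L) ^ 20) hPc1 h20 hN hNA1 hNB1).2
  have hst := step_le (D := Fintype.card ι) (c := c1) hK hL hC (by norm_num : 1 ≤ 20)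
  rw [← hc2] at hst
  have ratio : ∀ r s : ℝ, R L 20 r → R L 20 s →
      ((A - fl r B).card : ℝ) ≤ Ph (Fintype.card ι) c1 K L * N →
      ((A - fl s B).card : ℝ) ≤ Ph (Fintype.card ι) c1 K L * N →
      Qm N (Ph (Fintype.card ι) c2 K L) B (s / r) := by
    intro r s hr hs h8 h9
    exact Qm_mono hN hst ((hRii r s hr.1 hr.2 hs.1 hs.2 h8).1 h9)
  have Rra : R L 20 (-(a / (1 - a))) := (Ra.div hL R1a).neg.mono hL (by norm_num)
  have Rra1 : R L 20 (-((a + 1) / (1 - (a + 1)))) := by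
    have h8 : -((a + 1) / (1 - (a + 1))) = (1 + a) / a := by
      have : 1 - (a + 1) = -a := by ring
      rw [this]; field_simp; ring
    rw [h8]; exact (Ra1.div hL Ra).mono hL (by norm_num)
  have Rrc : R L 20 (-(c / (1 - c))) := (Rc.div hL R1c).neg.mono hL (by norm_num)
  have Rrc1 : R L 20 (-((c + 1) / (1 - (c + 1)))) := by
    have h8 : -((c + 1) / (1 - (c + 1))) = (1 + c) / c := by
      have : 1 - (c + 1) = -c := by ring
      rw [this]; field_simp; ring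
    rw [h8]; exact (Rc1.div hL Rc).mono hL (by norm_num)
  have q1 := ratio _ _ Rra Rra1 s1 s2
  have q2 := ratio _ _ Rrc Rrc1 s3 s4
  have q3 := ratio _ _ Rra Rrc s1 s3
  obtain ⟨sg, hsg⟩ : ∃ sg : ℝ, sg = (1 - a) * (1 + a) / (a * a) := ⟨_, rfl⟩
  obtain ⟨sg', hsg'⟩ : ∃ sg' : ℝ, sg' = (1 - c) * (1 + c) / (c * c) := ⟨_, rfl⟩
  obtain ⟨p, hp⟩ : ∃ p : ℝ, p = c * (1 - a) / ((1 - c) * a) := ⟨_, rfl⟩
  obtain ⟨ta, hta⟩ : ∃ ta : ℝ, ta = (1 + c) * (1 - a) / ((1 - c) * (1 + a)) := ⟨_, rfl⟩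
  have e1 : -((a + 1) / (1 - (a + 1))) / -(a / (1 - a)) = -sg := by
    rw [hsg]
    have : 1 - (a + 1) = -a := by ring
    rw [this]; field_simp; ring
  have e2 : -((c + 1) / (1 - (c + 1))) / -(c / (1 - c)) = -sg' := by
    rw [hsg']
    have : 1 - (c + 1) = -c := by ring
    rw [this]; field_simp; ring
  have e3 : -(c / (1 - c)) / -(a / (1 - a)) = p := by
    rw [hp]; field_simp
  rw [e1] at q1
  rw [e2] at q2
  rw [e3] at q3
  have Rsg : R L 4 sg := by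
    rw [hsg]; exact (R1a.mul hL Ra1).div hL (Ra.mul hL Ra)
  have Rsg' : R L 4 sg' := by
    rw [hsg']; exact (R1c.mul hL Rc1).div hL (Rc.mul hL Rc)
  have Rp : R L 4 p := by
    rw [hp]; exact (Rc.mul hL R1a).div hL (R1c.mul hL Ra)
  have Rta : R L 4 ta := by
    rw [hta]; exact (Rc1.mul hL R1a).div hL (R1c.mul hL Ra1)
  have etp : ta - p = (a - c) * (1 - a) / (a * (1 - c) * (1 + a)) := by
    rw [hta, hp]; field_simp; ring
  have Rtp : R L 5 (ta - p) := by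
    rw [etp]; exact (Rac.mul hL R1a).div hL ((Ra.mul hL R1c).mul hL Ra1)
  have e1t : 1 - ta = 2 * (a - c) / ((1 - c) * (1 + a)) := by
    rw [hta]; field_simp; ring
  have R1t : R L 4 (1 - ta) := by
    rw [e1t]; exact (R2.mul hL Rac).div hL (R1c.mul hL Ra1)
  have eta : (-sg' * p * p) * (-sg)⁻¹ = ta := by
    rw [hsg, hsg', hp, hta]
    field_simp
  have eal : (1 - ta) * (ta - p + (ta - p))⁻¹ = a / (1 - a) := by
    have h9 : ta - p + (ta - p) = 2 * ((a - c) * (1 - a) / (a * (1 - c) * (1 + a))) := by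
      rw [← etp]; ring
    rw [h9, e1t]
    field_simp
  -- general step
  have BBm : ∀ m, c1 ≤ m → ((B - B).card : ℝ) ≤ Ph (Fintype.card ι) m K L * N := fun m hm =>
    hBB.trans (mul_le_mul_of_nonneg_right (Ph_mono hK hL hm) hN.le)
  have step : ∀ m, c1 ≤ m → (∀ lam mu : ℝ, R L 20 lam → R L 20 mu →
        Qm N (Ph (Fintype.card ι) m K L) B lam → Qm N (Ph (Fintype.card ι) m K L) B mu →
        Qm N (Ph (Fintype.card ι) (f m) K L) B (lam * mu) ∧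
        Qm N (Ph (Fintype.card ι) (f m) K L) B lam⁻¹) ∧
      (∀ lam mu : ℝ, R L 20 lam → Qm N (Ph (Fintype.card ι) m K L) B lam →
        Qm N (Ph (Fintype.card ι) m K L) B mu →
        Qm N (Ph (Fintype.card ι) (f m) K L) B (-lam) ∧
        Qm N (Ph (Fintype.card ι) (f m) K L) B (lam + mu)) := fun m hm =>
    (hf m).2 ι B N K L hK hL hN (by omega) hNB hBN (BBm m hm)
  have up : ∀ (m m' : ℕ) (lam : ℝ), m ≤ m' → Qm N (Ph (Fintype.card ι) m K L) B lam →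
      Qm N (Ph (Fintype.card ι) m' K L) B lam := fun m m' lam h hq =>
    Qm_mono hN (Ph_mono hK hL h) hq
  have hc12' : c1 ≤ c2 := by rw [hc2]; nlinarith
  obtain ⟨c3, hc3⟩ : ∃ m, m = f c2 := ⟨_, rfl⟩
  obtain ⟨c4, hc4⟩ : ∃ m, m = f c3 := ⟨_, rfl⟩
  obtain ⟨c5, hc5⟩ : ∃ m, m = f c4 := ⟨_, rfl⟩
  obtain ⟨c6, hc6⟩ : ∃ m, m = f c5 := ⟨_, rfl⟩
  obtain ⟨c7, hc7⟩ : ∃ m, m = f c6 := ⟨_, rfl⟩
  obtain ⟨c8, hc8⟩ : ∃ m, m = f c7 := ⟨_, rfl⟩
  obtain ⟨c9, hc9⟩ : ∃ m, m = f c8 := ⟨_, rfl⟩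
  obtain ⟨c10, hc10⟩ : ∃ m, m = f c9 := ⟨_, rfl⟩
  have hc11' : c11 = f c10 := by
    rw [hc11, hc10, hc9, hc8, hc7, hc6, hc5, hc4, hc3]
  have l3 : c2 ≤ c3 := by rw [hc3]; exact hf0 _
  have l4 : c3 ≤ c4 := by rw [hc4]; exact hf0 _
  have l5 : c4 ≤ c5 := by rw [hc5]; exact hf0 _
  have l6 : c5 ≤ c6 := by rw [hc6]; exact hf0 _
  have l7 : c6 ≤ c7 := by rw [hc7]; exact hf0 _
  have l8 : c7 ≤ c8 := by rw [hc8]; exact hf0 _
  have l9 : c8 ≤ c9 := by rw [hc9]; exact hf0 _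
  have l10 : c9 ≤ c10 := by rw [hc10]; exact hf0 _
  have l11 : c10 ≤ c11 := by rw [hc11']; exact hf0 _
  -- the chain
  have m1 : Qm N (Ph (Fintype.card ι) c3 K L) B (-sg' * p) := by
    rw [hc3]
    exact ((step c2 hc12').1 _ _ (Rsg'.neg.mono hL (by norm_num)) (Rp.mono hL (by norm_num))
      q2 q3).1
  have m2 : Qm N (Ph (Fintype.card ι) c3 K L) B (-sg)⁻¹ := by
    rw [hc3]
    exact ((step c2 hc12').1 _ _ (Rsg.neg.mono hL (by norm_num)) (Rp.mono hL (by norm_num))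
      q1 q3).2
  have m3 : Qm N (Ph (Fintype.card ι) c4 K L) B (-sg' * p * p) := by
    rw [hc4]
    exact ((step c3 (by omega)).1 _ _ ((Rsg'.neg.mul hL Rp).mono hL (by norm_num))
      (Rp.mono hL (by norm_num)) m1 (up _ _ _ l3 q3)).1
  have m4 : Qm N (Ph (Fintype.card ι) c5 K L) B ta := by
    rw [hc5, ← eta]
    exact ((step c4 (by omega)).1 _ _ (((Rsg'.neg.mul hL Rp).mul hL Rp).mono hL (by norm_num))
      ((Rsg.neg.inv hL).mono hL (by norm_num)) m3 (up _ _ _ l4 m2)).1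
  have m5 : Qm N (Ph (Fintype.card ι) c6 K L) B (-ta) := by
    rw [hc6]
    exact ((step c5 (by omega)).2 _ _ (Rta.mono hL (by norm_num)) m4 m4).1
  have q3' : Qm N (Ph (Fintype.card ι) c5 K L) B p := up _ _ _ (by omega) q3
  have m6 : Qm N (Ph (Fintype.card ι) c6 K L) B (-p) := by
    rw [hc6]
    exact ((step c5 (by omega)).2 _ _ (Rp.mono hL (by norm_num)) q3' q3').1
  have qone : Qm N (Ph (Fintype.card ι) c6 K L) B 1 := by
    unfold Qm
    rw [fl_one]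
    exact BBm c6 (by omega)
  have m7 : Qm N (Ph (Fintype.card ι) c7 K L) B (1 - ta) := by
    have h10 : 1 - ta = -ta + 1 := by ring
    rw [hc7, h10]
    exact ((step c6 (by omega)).2 _ _ (Rta.neg.mono hL (by norm_num)) m5 qone).2
  have m8 : Qm N (Ph (Fintype.card ι) c7 K L) B (ta - p) := by
    have h10 : ta - p = ta + -p := by ring
    rw [hc7, h10]
    exact ((step c6 (by omega)).2 _ _ (Rta.mono hL (by norm_num)) (up _ _ _ l6 m4) m6).2
  have m9 : Qm N (Ph (Fintype.card ι) c8 K L) B (ta - p + (ta - p)) := by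
    rw [hc8]
    exact ((step c7 (by omega)).2 _ _ (Rtp.mono hL (by norm_num)) m8 m8).2
  have Rtt : R L 20 (ta - p + (ta - p)) := by
    have h10 : ta - p + (ta - p) = 2 * (ta - p) := by ring
    rw [h10]; exact (R2.mul hL Rtp).mono hL (by norm_num)
  have m10 : Qm N (Ph (Fintype.card ι) c9 K L) B (ta - p + (ta - p))⁻¹ := by
    rw [hc9]
    exact ((step c8 (by omega)).1 _ _ Rtt Rtt m9 m9).2
  have m11 : Qm N (Ph (Fintype.card ι) c10 K L) B (a / (1 - a)) := by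
    rw [hc10, ← eal]
    exact ((step c9 (by omega)).1 _ _ (R1t.mono hL (by norm_num)) (Rtt.inv hL)
      (up _ _ _ (by omega) m7) m10).1
  have m12 : Qm N (Ph (Fintype.card ι) c11 K L) B (-(a / (1 - a))) := by
    rw [hc11']
    exact ((step c10 (by omega)).2 _ _ ((Ra.div hL R1a).mono hL (by norm_num)) m11 m11).1
  -- the end
  have hPc11 := one_le_Ph (D := Fintype.card ι) (c := c11) hK hL
  have hc11pos : 1 ≤ c11 := by omega
  have hNA2 : N ≤ Ph (Fintype.card ι) c11 K L * A.card :=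
    hNA.trans (mul_le_mul_of_nonneg_right (le_Ph hK hL hc11pos) (Nat.cast_nonneg _))
  have hNB2 : N ≤ Ph (Fintype.card ι) c11 K L * B.card :=
    hNB.trans (mul_le_mul_of_nonneg_right (le_Ph hK hL hc11pos) (Nat.cast_nonneg _))
  have hend := (hR ι A B N (Ph (Fintype.card ι) c11 K L) ((4 * L) ^ 20) hPc11 h20 hN hNA2
    hNB2).2 (-(a / (1 - a))) (-(a / (1 - a))) Rra.1 Rra.2 Rra.1 Rra.2
    (s1.trans (mul_le_mul_of_nonneg_right (Ph_mono hK hL (by omega)) hN.le))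
  have hst2 := step_le (D := Fintype.card ι) (c := c11) hK hL hC (by norm_num : 1 ≤ 20)
  rw [← hc12] at hst2
  exact (hend.2 m12).trans (mul_le_mul_of_nonneg_right hst2 hN.le)

end Pool.Agent.H69.HDS
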