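import Pool.Agent.H82.HD.TR
import Pool.Agent.H90.G.REC

/-!
# Row RECp: the recursion, without and with the two-ends case
-/

set_option autoImplicit false

namespace Pool.Agent.H69.HDS

open MeasureTheory Set Pool.Agent.H83.G Pool.Agent.H82.HD
open scoped ENNReal NNReal RealInnerProductSpace

theorem Bdp_mono {m L : ℕ} {β : E m → ℂ} {x κ κ' R T g : ℝ} (h : κ ≤ κ') (hR : 0 ≤ R)
    (hT : 0 ≤ T) (hB : Bdp m L β x κ' R T g) : Bdp m L β x κ R T g := by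
  intro A H G X hA hH hG hBC hX hXH
  refine hB A H G X hA hH ⟨hG.1, fun ζ hζ =>
    Pool.Agent.H90.G.Rg_mono h (inv_nonneg.2 hR) (hG.2.1 ζ hζ), hG.2.2⟩ ?_ hX hXH
  intro ρ z₁ p h1 h2 h3 h4
  have h5 := mul_le_mul_of_nonneg_right h hT
  refine hBC ρ z₁ p h1 h2 ?_ ?_
  · have h6 : (1 / 4 + κ) * T = 1 / 4 * T + κ * T := by ring
    have h7 : (1 / 4 + κ') * T = 1 / 4 * T + κ' * T := by ring
    linarith
  · have h6 : (4 - κ) * T = 4 * T - κ * T := by ring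
    have h7 : (4 - κ') * T = 4 * T - κ' * T := by ring
    linarith

private theorem num1 (CB CE Cb a b e g Ax Rx I : ℝ) (hCB : 1 ≤ CB) (hCE : 0 < CE)
    (hCb : 0 < Cb) (hab : a * b ≤ e) (he0 : 0 ≤ e) (hg : 0 ≤ g) (hAx : 0 ≤ Ax)
    (hRx : 0 ≤ Rx) (hI : 0 ≤ I) :
    CB * (b * g) * Ax * Rx * (CE * a * I) ≤
      (CB + Cb + CB * CE + 1) * e * g * Ax * Rx * I := by
  have h1 : 0 ≤ g * Ax * Rx * I := by positivity
  have h2 : CB * CE * (a * b) ≤ CB * CE * e :=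
    mul_le_mul_of_nonneg_left hab (by positivity)
  have h3 : CB * CE * e ≤ (CB + Cb + CB * CE + 1) * e :=
    mul_le_mul_of_nonneg_right (by linarith) he0
  calc CB * (b * g) * Ax * Rx * (CE * a * I) = CB * CE * (a * b) * (g * Ax * Rx * I) := by ring
    _ ≤ (CB + Cb + CB * CE + 1) * e * (g * Ax * Rx * I) :=
        mul_le_mul_of_nonneg_right (h2.trans h3) h1
    _ = _ := by ring

private theorem num2 (CB CE Cb a S T' Ax Rx I : ℝ) (hCB : 1 ≤ CB) (hCE : 0 < CE)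
    (hCb : 0 < Cb) (hab : a * S ≤ T') (he0 : 0 ≤ T') (hAx : 0 ≤ Ax)
    (hRx : 0 ≤ Rx) (hI : 0 ≤ I) :
    CB * S * Ax * Rx * (CE * a * I) ≤ (CB + Cb + CB * CE + 1) * T' * Ax * Rx * I := by
  have h1 : 0 ≤ Ax * Rx * I := by positivity
  have h2 : CB * CE * (a * S) ≤ CB * CE * T' :=
    mul_le_mul_of_nonneg_left hab (by positivity)
  have h3 : CB * CE * T' ≤ (CB + Cb + CB * CE + 1) * T' :=
    mul_le_mul_of_nonneg_right (by linarith) he0
  calc CB * S * Ax * Rx * (CE * a * I) = CB * CE * (a * S) * (Ax * Rx * I) := by ring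
    _ ≤ (CB + Cb + CB * CE + 1) * T' * (Ax * Rx * I) :=
        mul_le_mul_of_nonneg_right (h2.trans h3) h1
    _ = _ := by ring

/-- RECp: the recursion -/
theorem pf_RECp (hBROp : T_BROp) (hBAS : Pool.Agent.H22.G4.T_BASx) (hENS : T_ENS)
    (hENB : T_ENB) (hWT3 : T_WT3) : T_RECp := by
  classical
  intro m L x γ β δ ε₀ ε₁ ε₂ hm hx0 hx4 hmx hL hβ hδ hδ1 hδε hε₀1 hε₁
  have hε₀ : 0 < ε₀ := by linarith
  obtain ⟨CB, hCB, hbro⟩ := hBROp m L x γ β δ ε₀ ε₁ ε₂ hm hx0 hx4 hmx hL hβ hδ hδ1 hδε hε₀1 hε₁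
  obtain ⟨Cb, hCb, -, hbas⟩ := hBAS m L x hm hx0 hx4
  obtain ⟨CE, hCE, hens⟩ := hENS m (m + 3) β δ hβ hδ.le le_rfl
  have hwt5 : ∀ x : Z m, ∃ l : Zi m, ‖x - zc l‖ ≤ (m : ℝ) + 1 :=
    (hWT3 m (m + 3) le_rfl).choose_spec.2.2.2.2
  have hlo : 0 < lo m := by unfold lo; positivity
  have hlolb : lo m ≤ lb m := by
    unfold lo lb
    have : (0 : ℝ) ≤ m := Nat.cast_nonneg m
    nlinarith
  have hlb : 0 < lb m := by linarith
  have hCB0 : 0 < CB := by linarith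
  have hCBE : 0 < CB * CE := by positivity
  obtain ⟨C₂, hC₂⟩ : ∃ C₂ : ℝ, C₂ = CB + Cb + CB * CE + 1 := ⟨_, rfl⟩
  have hC₂1 : 1 ≤ C₂ := by rw [hC₂]; linarith
  have hC₂0 : 0 < C₂ := by linarith
  refine ⟨C₂, hC₂1, ?_⟩
  intro κ R T g hκ hκ1 hR hRT hg hB
  have hR1 : 1 ≤ R := hC₂1.trans hR
  have hR0 : 0 < R := by linarith
  have hT0 : 0 < T := by linarith
  have hCBR : CB ≤ R := by rw [hC₂] at hR; linarith
  have hRδ : 0 ≤ R ^ (-δ) := by positivity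
  have hB' : Bdp m L β x (κ + CB * R ^ (-δ)) (R ^ (1 - ε₀)) T g := by
    refine Bdp_mono ?_ (by positivity) hT0.le hB
    have : CB * R ^ (-δ) ≤ C₂ * R ^ (-δ) :=
      mul_le_mul_of_nonneg_right (by rw [hC₂]; linarith) hRδ
    linarith
  -- cover by balls of radius `R`
  have hJ : ∀ z : Z m, ∃ l : Zi m, ‖z - (R / ((m : ℝ) + 1)) • zc l‖ ≤ R := by
    intro z
    have hm1 : (0 : ℝ) < (m : ℝ) + 1 := by positivity
    obtain ⟨l, hl⟩ := hwt5 ((R / ((m : ℝ) + 1))⁻¹ • z)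
    refine ⟨l, ?_⟩
    have h1 : z - (R / ((m : ℝ) + 1)) • zc l =
        (R / ((m : ℝ) + 1)) • ((R / ((m : ℝ) + 1))⁻¹ • z - zc l) := by
      rw [smul_sub, smul_smul, mul_inv_cancel₀ (by positivity), one_smul]
    rw [h1, norm_smul, Real.norm_of_nonneg (by positivity)]
    calc R / ((m : ℝ) + 1) * ‖(R / ((m : ℝ) + 1))⁻¹ • z - zc l‖
        ≤ R / ((m : ℝ) + 1) * ((m : ℝ) + 1) := mul_le_mul_of_nonneg_left hl (by positivity)
      _ = R := by field_simp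
  choose jj hjj using hJ
  have hcore : ∀ (A H M0 : ℝ) (G : Z m → ℂ) (X : Finset (Z m)), 0 ≤ M0 → Cls L κ R A G →
      (∀ (z₀ : Z m) (Y : Finset (Z m)), Y ⊆ X → (∀ z ∈ Y, ‖z - z₀‖ ≤ R) →
        (Y.card : ℝ) * H ^ (2 + x) ≤ M0 * (Er (m + 3) β R δ G z₀).toReal) →
      (X.card : ℝ) * H ^ (2 + x) ≤ M0 * (CE * R ^ (lo m * δ) * ∫ ζ, ‖G ζ‖ ^ 2) := by
    intro A H M0 G X hM0 hG hY
    have hI0 : 0 ≤ ∫ ζ, ‖G ζ‖ ^ 2 := integral_nonneg fun ζ => by positivity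
    obtain ⟨J, hJd⟩ : ∃ J : Finset (Zi m), J = X.image jj := ⟨_, rfl⟩
    have hcard : (X.card : ℝ) = ∑ l ∈ J, ((X.filter (fun z => jj z = l)).card : ℝ) := by
      have h1 := Finset.card_eq_sum_card_fiberwise (f := jj) (s := X) (t := J)
        (fun z hz => by rw [hJd]; exact Finset.mem_coe.2 (Finset.mem_image_of_mem _ hz))
      exact_mod_cast h1
    have h2 : ∑ l ∈ J, Er (m + 3) β R δ G ((R / ((m : ℝ) + 1)) • zc l) ≤
        ENNReal.ofReal (CE * R ^ (lo m * δ) * ∫ ζ, ‖G ζ‖ ^ 2) := by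
      refine (ENNReal.sum_le_tsum J).trans ?_
      exact hens R G hR1 hG.1 fun ζ hζ =>
        Pool.Agent.H90.G.Rg_mono (by linarith) (inv_nonneg.2 hR0.le) (hG.2.1 ζ hζ)
    have h3 : ∀ l ∈ J, Er (m + 3) β R δ G ((R / ((m : ℝ) + 1)) • zc l) ≠ ⊤ := by
      intro l hl
      refine ne_top_of_le_ne_top ENNReal.ofReal_ne_top (le_trans ?_ h2)
      exact Finset.single_le_sum
        (f := fun l => Er (m + 3) β R δ G ((R / ((m : ℝ) + 1)) • zc l))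
        (fun _ _ => by positivity) hl
    have h4 : ∑ l ∈ J, (Er (m + 3) β R δ G ((R / ((m : ℝ) + 1)) • zc l)).toReal ≤
        CE * R ^ (lo m * δ) * ∫ ζ, ‖G ζ‖ ^ 2 := by
      rw [← ENNReal.toReal_sum h3]
      exact ENNReal.toReal_le_of_le_ofReal (by positivity) h2
    rw [hcard, Finset.sum_mul]
    calc ∑ l ∈ J, ((X.filter (fun z => jj z = l)).card : ℝ) * H ^ (2 + x)
        ≤ ∑ l ∈ J, M0 * (Er (m + 3) β R δ G ((R / ((m : ℝ) + 1)) • zc l)).toReal := by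
          refine Finset.sum_le_sum fun l _ => hY _ _ (Finset.filter_subset _ _) ?_
          intro z hz
          have h5 := (Finset.mem_filter.1 hz).2
          rw [← h5]
          exact hjj z
      _ = M0 * ∑ l ∈ J, (Er (m + 3) β R δ G ((R / ((m : ℝ) + 1)) • zc l)).toReal := by
          rw [Finset.mul_sum]
      _ ≤ _ := mul_le_mul_of_nonneg_left h4 hM0
  have h3x : 1 ≤ R ^ (m * x / 2 - 1) := Real.one_le_rpow hR1 (by linarith)
  have hCbC : Cb ≤ C₂ := by rw [hC₂]; linarith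
  -- the trivial case
  have htriv : ∀ (A H Q : ℝ) (G : Z m → ℂ) (X : Finset (Z m)), 0 < A → 0 < H → H ≤ A →
      Cb ≤ Q → Cls L κ R A G → Sep X → (∀ z ∈ X, H ≤ ‖TF G z‖) →
      (X.card : ℝ) * H ^ (2 + x) ≤ Q * A ^ x * R ^ (m * x / 2 - 1) * ∫ ζ, ‖G ζ‖ ^ 2 := by
    intro A H Q G X hA hH hHA hQ hG hX hXH
    have hI0 : 0 ≤ ∫ ζ, ‖G ζ‖ ^ 2 := integral_nonneg fun ζ => by positivity
    refine (hbas κ R A H G X hκ (by linarith) hR1 hA hH hHA hG hX hXH).trans ?_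
    have hAx : 0 ≤ A ^ x := by positivity
    calc Cb * A ^ x * ∫ ζ, ‖G ζ‖ ^ 2 = Cb * (A ^ x * 1 * ∫ ζ, ‖G ζ‖ ^ 2) := by ring
      _ ≤ Q * (A ^ x * R ^ (m * x / 2 - 1) * ∫ ζ, ‖G ζ‖ ^ 2) := by
          refine mul_le_mul hQ ?_ (by positivity) (hCb.le.trans hQ)
          refine mul_le_mul_of_nonneg_right ?_ hI0
          exact mul_le_mul_of_nonneg_left h3x hAx
      _ = _ := by ring
  refine ⟨?_, fun hTEN hδγ hε₀γ hδε₂ hRT2 => ?_⟩
  · intro A H G X hA hH hG hBC hX hXH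
    have hI0 : 0 ≤ ∫ ζ, ‖G ζ‖ ^ 2 := integral_nonneg fun ζ => by positivity
    have hpow1 : 1 ≤ R ^ (ε₁ + 2 * lb m * δ + ((m : ℝ) + 2) * ε₀) :=
      Real.one_le_rpow hR1 (by positivity)
    rcases le_or_gt H A with hHA | hAH
    · refine htriv A H _ G X hA hH hHA ?_ hG hX fun z hz => (hXH z hz).2.2
      calc Cb ≤ C₂ * 1 * 1 := by linarith
        _ ≤ C₂ * R ^ (ε₁ + 2 * lb m * δ + ((m : ℝ) + 2) * ε₀) * g := by gcongr
    · have hM0 : 0 ≤ CB * (R ^ (ε₁ + lb m * δ + ((m : ℝ) + 2) * ε₀) * g) * A ^ x *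
          R ^ (m * x / 2 - 1) := by positivity
      have h1 := hcore A H _ G X hM0 hG (by
        intro z₀ Y hY hYR
        exact (hbro κ R T A H g G z₀ Y hκ hκ1 hCBR hRT hA hAH.le hg hG hBC
          (fun z hz z' hz' hne => hX z (hY hz) z' (hY hz') hne)
          (fun z hz => ⟨hYR z hz, hXH z (hY hz)⟩) hB').1)
      refine h1.trans ?_
      rw [hC₂]
      have hab : R ^ (lo m * δ) * R ^ (ε₁ + lb m * δ + ((m : ℝ) + 2) * ε₀) ≤
          R ^ (ε₁ + 2 * lb m * δ + ((m : ℝ) + 2) * ε₀) := by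
        rw [← Real.rpow_add hR0]
        refine Real.rpow_le_rpow_of_exponent_le hR1 ?_
        have : lo m * δ ≤ lb m * δ := mul_le_mul_of_nonneg_right hlolb hδ.le
        linarith
      exact num1 CB CE Cb _ _ _ g _ _ _ hCB hCE hCb hab (by positivity) (by linarith)
        (by positivity) (by positivity) hI0
  · intro A H G X hA hH hG hBC hX hXH
    have hI0 : 0 ≤ ∫ ζ, ‖G ζ‖ ^ 2 := integral_nonneg fun ζ => by positivity
    have hpow1 : 1 ≤ R ^ (2 * lb m * (δ + ε₀)) := Real.one_le_rpow hR1 (by positivity)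
    have hpow2 : 0 ≤ C₂ * R ^ (ε₁ + 2 * lb m * δ) * g := by positivity
    rcases le_or_gt H A with hHA | hAH
    · refine htriv A H _ G X hA hH hHA ?_ hG hX fun z hz => (hXH z hz).2.2
      calc Cb ≤ C₂ * 1 := by linarith
        _ ≤ C₂ * R ^ (2 * lb m * (δ + ε₀)) := by gcongr
        _ ≤ _ := by linarith
    · have hM0 : 0 ≤ CB * (R ^ (ε₁ + lb m * δ) * g + R ^ (lb m * (δ + ε₀))) * A ^ x *
          R ^ (m * x / 2 - 1) := by positivity
      have h1 := hcore A H _ G X hM0 hG (by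
        intro z₀ Y hY hYR
        exact (hbro κ R T A H g G z₀ Y hκ hκ1 hCBR hRT hA hAH.le hg hG hBC
          (fun z hz z' hz' hne => hX z (hY hz) z' (hY hz') hne)
          (fun z hz => ⟨hYR z hz, hXH z (hY hz)⟩) hB').2 hTEN hδγ hε₀γ hδε₂ hRT2)
      refine h1.trans ?_
      have h3 := Pool.Agent.H90.G.pow_sum R (lo m) (lb m) δ ε₀ ε₁ g hR1 hlolb hlb.le hδ.le
        hε₀.le (by linarith)
      have h4 := num2 CB CE Cb (R ^ (lo m * δ))
        (R ^ (ε₁ + lb m * δ) * g + R ^ (lb m * (δ + ε₀)))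
        (R ^ (ε₁ + 2 * lb m * δ) * g + R ^ (2 * lb m * (δ + ε₀))) (A ^ x)
        (R ^ (m * x / 2 - 1)) (∫ ζ, ‖G ζ‖ ^ 2) hCB hCE hCb h3 (by positivity) (by positivity)
        (by positivity) hI0
      refine h4.trans (le_of_eq ?_)
      rw [hC₂]
      ring

end Pool.Agent.H69.HDS
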